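import Mathlib

set_option autoImplicit false

/-! The outer product of elements of two group algebras, and blocks of direct products. -/

namespace Pool.Agent.X27.Blk

open Finset

variable {k : Type} [Field k]

section box
variable {G H : Type} [Group G] [Group H]

/-- The inclusion of `k G` into `k (G × H)`. -/
noncomputable def i1 : MonoidAlgebra k G →ₐ[k] MonoidAlgebra k (G × H) :=
  MonoidAlgebra.mapDomainAlgHom k k (MonoidHom.inl G H)

/-- The inclusion of `k H` into `k (G × H)`. -/
noncomputable def i2 : MonoidAlgebra k H →ₐ[k] MonoidAlgebra k (G × H) :=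
  MonoidAlgebra.mapDomainAlgHom k k (MonoidHom.inr G H)

theorem i1_single (g : G) (r : k) :
    (i1 (MonoidAlgebra.single g r) : MonoidAlgebra k (G × H)) = MonoidAlgebra.single (g, 1) r := by
  unfold i1
  rw [MonoidAlgebra.mapDomainAlgHom_apply, MonoidAlgebra.mapDomain_single]
  rfl

theorem i2_single (g : H) (r : k) :
    (i2 (MonoidAlgebra.single g r) : MonoidAlgebra k (G × H)) = MonoidAlgebra.single (1, g) r := by
  unfold i2
  rw [MonoidAlgebra.mapDomainAlgHom_apply, MonoidAlgebra.mapDomain_single]
  rfl

theorem i_comm (a : MonoidAlgebra k G) (b : MonoidAlgebra k H) :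
    (i1 a * i2 b : MonoidAlgebra k (G × H)) = i2 b * i1 a := by
  induction a using MonoidAlgebra.induction_linear with
  | zero => rw [map_zero, zero_mul, mul_zero]
  | add x y hx hy => rw [map_add, add_mul, mul_add, hx, hy]
  | single g r =>
    induction b using MonoidAlgebra.induction_linear with
    | zero => rw [map_zero, zero_mul, mul_zero]
    | add x y hx hy => rw [map_add, add_mul, mul_add, hx, hy]
    | single h s =>
      rw [i1_single, i2_single, MonoidAlgebra.single_mul_single, MonoidAlgebra.single_mul_single]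
      simp [mul_comm]

/-- The outer product: the function `(g, h) ↦ a(g) b(h)`. -/
noncomputable def box (a : MonoidAlgebra k G) (b : MonoidAlgebra k H) : MonoidAlgebra k (G × H) :=
  i1 a * i2 b

theorem box_mul (a c : MonoidAlgebra k G) (b d : MonoidAlgebra k H) :
    box a b * box c d = box (a * c) (b * d) := by
  unfold box
  rw [map_mul, map_mul, mul_assoc, ← mul_assoc (i2 b), ← i_comm c b, mul_assoc, mul_assoc]

theorem box_one : box (1 : MonoidAlgebra k G) (1 : MonoidAlgebra k H) = 1 := by
  unfold box
  rw [map_one, map_one, mul_one]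

theorem box_single (g : G) (h : H) (r s : k) : box (MonoidAlgebra.single g r) (MonoidAlgebra.single h s) =
    MonoidAlgebra.single (g, h) (r * s) := by
  unfold box
  rw [i1_single, i2_single, MonoidAlgebra.single_mul_single]
  simp

theorem add_box (a c : MonoidAlgebra k G) (b : MonoidAlgebra k H) :
    box (a + c) b = box a b + box c b := by
  unfold box
  rw [map_add, add_mul]

theorem box_add (a : MonoidAlgebra k G) (b d : MonoidAlgebra k H) :
    box a (b + d) = box a b + box a d := by
  unfold box
  rw [map_add, mul_add]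

theorem zero_box (b : MonoidAlgebra k H) : box (0 : MonoidAlgebra k G) b = 0 := by
  unfold box
  rw [map_zero, zero_mul]

theorem box_zero (a : MonoidAlgebra k G) : box a (0 : MonoidAlgebra k H) = 0 := by
  unfold box
  rw [map_zero, mul_zero]

theorem coeff_box (a : MonoidAlgebra k G) (b : MonoidAlgebra k H) (g : G) (h : H) :
    (box a b).coeff (g, h) = a.coeff g * b.coeff h := by
  classical
  induction a using MonoidAlgebra.induction_linear with
  | zero => rw [zero_box]; simp
  | add x y hx hy =>
    rw [add_box, MonoidAlgebra.coeff_add, MonoidAlgebra.coeff_add, Finsupp.add_apply, Finsupp.add_apply,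
      hx, hy, add_mul]
  | single g' r =>
    induction b using MonoidAlgebra.induction_linear with
    | zero => rw [box_zero]; simp
    | add x y hx hy =>
      rw [box_add, MonoidAlgebra.coeff_add, MonoidAlgebra.coeff_add, Finsupp.add_apply, Finsupp.add_apply,
        hx, hy, mul_add]
    | single h' s =>
      rw [box_single, MonoidAlgebra.coeff_single, MonoidAlgebra.coeff_single, MonoidAlgebra.coeff_single,
        Finsupp.single_apply, Finsupp.single_apply, Finsupp.single_apply]
      by_cases h1 : g' = g
      · by_cases h2 : h' = h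
        · simp [h1, h2]
        · simp [h2]
      · simp [h1]

theorem of_pair (g : G) (h : H) : MonoidAlgebra.of k (G × H) (g, h) =
    box (MonoidAlgebra.of k G g) (MonoidAlgebra.of k H h) := by
  rw [MonoidAlgebra.of_apply, MonoidAlgebra.of_apply, MonoidAlgebra.of_apply, box_single, mul_one]

theorem box_central {z : MonoidAlgebra k G} {w : MonoidAlgebra k H} (hz : ∀ x, x * z = z * x)
    (hw : ∀ x, x * w = w * x) (x : MonoidAlgebra k (G × H)) : x * box z w = box z w * x := by
  induction x using MonoidAlgebra.induction_linear with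
  | zero => rw [zero_mul, mul_zero]
  | add x y hx hy => rw [add_mul, mul_add, hx, hy]
  | single p r =>
    obtain ⟨g, h⟩ := p
    have e : (MonoidAlgebra.single (g, h) r : MonoidAlgebra k (G × H)) =
        box (MonoidAlgebra.single g r) (MonoidAlgebra.single h 1) := by
      rw [box_single, mul_one]
    rw [e, box_mul, box_mul, hz, hw]

end box

section cls
variable {G : Type} [Group G] [Finite G]

open Classical in
/-- The class sum. -/
noncomputable def cls (k : Type) [Field k] (c : ConjClasses G) : MonoidAlgebra k G :=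
  MonoidAlgebra.ofCoeff (Finsupp.equivFunOnFinite.symm fun g => if ConjClasses.mk g = c then 1 else 0)

open Classical in
theorem coeff_cls (c : ConjClasses G) (g : G) :
    (cls k c).coeff g = if ConjClasses.mk g = c then 1 else 0 := rfl

theorem cls_central (c : ConjClasses G) (x : MonoidAlgebra k G) : x * cls k c = cls k c * x := by
  classical
  induction x using MonoidAlgebra.induction_linear with
  | zero => rw [zero_mul, mul_zero]
  | add x y hx hy => rw [add_mul, mul_add, hx, hy]
  | single y r =>
    ext g
    rw [MonoidAlgebra.coeff_single_mul_apply, MonoidAlgebra.coeff_mul_single_apply, coeff_cls, coeff_cls,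
      mul_comm]
    have h : ConjClasses.mk (y⁻¹ * g) = ConjClasses.mk (g * y⁻¹) := by
      rw [ConjClasses.mk_eq_mk_iff_isConj, isConj_iff]
      exact ⟨y, by group⟩
    rw [h]

omit [Finite G] in
theorem coeff_conj {z : MonoidAlgebra k G} (hz : ∀ x, x * z = z * x) (x g : G) :
    z.coeff (x * g * x⁻¹) = z.coeff g := by
  have h := congrArg (fun w => w.coeff (x * g)) (hz (MonoidAlgebra.single x 1))
  simp only [MonoidAlgebra.coeff_single_mul_apply, MonoidAlgebra.coeff_mul_single_apply, one_mul,
    mul_one, inv_mul_cancel_left] at h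
  exact h.symm

omit [Finite G] in
theorem exists_conj (g : G) : ∃ x : G, x * g * x⁻¹ = (Quotient.out (ConjClasses.mk g) : G) := by
  have h : ConjClasses.mk g = ConjClasses.mk (Quotient.out (ConjClasses.mk g) : G) :=
    (Quotient.out_eq (ConjClasses.mk g)).symm
  rw [ConjClasses.mk_eq_mk_iff_isConj, isConj_iff] at h
  exact h

end cls

section product
variable {G H : Type} [Group G] [Group H] [Finite G] [Finite H]

/-- The centre of `k (G × H)` is spanned by products. -/
theorem central_expand [Fintype (ConjClasses G)] [Fintype (ConjClasses H)] {F : MonoidAlgebra k (G × H)}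
    (hF : ∀ x, x * F = F * x) : F = ∑ c : ConjClasses G, ∑ d : ConjClasses H,
      F.coeff ((Quotient.out c : G), (Quotient.out d : H)) • box (cls k c) (cls k d) := by
  classical
  ext ⟨g, h⟩
  rw [MonoidAlgebra.coeff_sum, Finsupp.finsetSum_apply]
  have e : ∀ c : ConjClasses G, (MonoidAlgebra.coeff (∑ d : ConjClasses H,
      F.coeff ((Quotient.out c : G), (Quotient.out d : H)) • box (cls k c) (cls k d))) (g, h) =
      if ConjClasses.mk g = c then F.coeff ((Quotient.out c : G), (Quotient.out (ConjClasses.mk h) : H))
      else 0 := by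
    intro c
    rw [MonoidAlgebra.coeff_sum, Finsupp.finsetSum_apply]
    have e2 : ∀ d : ConjClasses H, (MonoidAlgebra.coeff
        (F.coeff ((Quotient.out c : G), (Quotient.out d : H)) • box (cls k c) (cls k d))) (g, h) =
        if ConjClasses.mk h = d then (if ConjClasses.mk g = c then
          F.coeff ((Quotient.out c : G), (Quotient.out d : H)) else 0) else 0 := by
      intro d
      rw [MonoidAlgebra.coeff_smul_apply, coeff_box, coeff_cls, coeff_cls, smul_eq_mul]
      by_cases h1 : ConjClasses.mk g = c <;> by_cases h2 : ConjClasses.mk h = d <;> simp [h1, h2]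
    rw [sum_congr rfl fun d _ => e2 d, sum_ite_eq, if_pos (mem_univ _)]
  rw [sum_congr rfl fun c _ => e c, sum_ite_eq, if_pos (mem_univ _)]
  obtain ⟨x, hx⟩ := exists_conj g
  obtain ⟨y, hy⟩ := exists_conj h
  rw [← hx, ← hy]
  exact (coeff_conj hF (x, y) (g, h)).symm

end product

/-- A block idempotent. -/
def IsBlock {G : Type} [Group G] (e : MonoidAlgebra k G) : Prop :=
  IsIdempotentElem e ∧ (∀ x : MonoidAlgebra k G, x * e = e * x) ∧ e ≠ 0 ∧
    ∀ f : MonoidAlgebra k G, IsIdempotentElem f → (∀ x : MonoidAlgebra k G, x * f = f * x) →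
      f * e = 0 ∨ f * e = e

section loc
open Polynomial

theorem exists_nilp [IsAlgClosed k] {G : Type} [Group G] [Finite G] {e : MonoidAlgebra k G}
    (he : IsBlock e) {z : MonoidAlgebra k G} (hz : ∀ x, x * z = z * x) :
    ∃ (c : k) (n : ℕ), (z - algebraMap k (MonoidAlgebra k G) c) ^ n * e = 0 := by
  obtain ⟨h1, h2, h3, h4⟩ := he
  have hfd : FiniteDimensional k (MonoidAlgebra k G) :=
    Module.Finite.equiv (MonoidAlgebra.coeffLinearEquiv k).symm
  let I : Ideal k[X] :=
    { carrier := {P | aeval z P * e = 0}
      add_mem' := by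
        intro a b ha hb
        change aeval z a * e = 0 at ha
        change aeval z b * e = 0 at hb
        change aeval z (a + b) * e = 0
        rw [map_add, add_mul, ha, hb, add_zero]
      zero_mem' := by
        change aeval z 0 * e = 0
        rw [map_zero, zero_mul]
      smul_mem' := by
        intro c a ha
        change aeval z a * e = 0 at ha
        change aeval z (c * a) * e = 0
        rw [map_mul, mul_assoc, ha, mul_zero] }
  have hI : ∀ P : k[X], P ∈ I ↔ aeval z P * e = 0 := fun P => Iff.rfl
  set P := Submodule.IsPrincipal.generator I with hP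
  have hdvd : ∀ Q : k[X], Q ∈ I ↔ P ∣ Q := fun Q => Submodule.IsPrincipal.mem_iff_generator_dvd I
  have hPI : aeval z P * e = 0 := (hI P).1 ((hdvd P).2 dvd_rfl)
  have hmin : minpoly k z ∈ I := by
    rw [hI, minpoly.aeval, zero_mul]
  have hP0 : P ≠ 0 := by
    intro h0
    have := (hdvd _).1 hmin
    rw [h0, zero_dvd_iff] at this
    exact minpoly.ne_zero (Algebra.IsIntegral.isIntegral z) this
  have hdeg : P.degree ≠ 0 := by
    intro h0
    have hu : IsUnit P := isUnit_iff_degree_eq_zero.2 h0
    have h5 : (1 : k[X]) ∈ I := (hdvd 1).2 hu.dvd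
    rw [hI, map_one, one_mul] at h5
    exact h3 h5
  obtain ⟨c, hc⟩ := IsAlgClosed.exists_root P hdeg
  obtain ⟨Q, hPQ, hQ⟩ := exists_eq_pow_rootMultiplicity_mul_and_not_dvd P hP0 c
  set m := P.rootMultiplicity c with hm
  have hmpos : 0 < m := (rootMultiplicity_pos hP0).2 hc
  have hcop : IsCoprime ((X - C c) ^ m) Q :=
    IsCoprime.pow_left ((irreducible_X_sub_C c).coprime_iff_not_dvd.2 hQ)
  obtain ⟨u, v, huv⟩ := hcop
  have hcen : ∀ R : k[X], ∀ x, x * aeval z R = aeval z R * x := by
    intro R x
    have hcom : Commute x z := hz x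
    induction R using Polynomial.induction_on' with
    | add p q hp hq => rw [map_add, mul_add, add_mul, hp, hq]
    | monomial n a =>
      rw [aeval_monomial, ← mul_assoc, ← Algebra.commutes a x, mul_assoc, (hcom.pow_right n).eq, mul_assoc]
  have hmulP : ∀ R : k[X], aeval z (R * P) * e = 0 := by
    intro R
    rw [map_mul, mul_assoc, hPI, mul_zero]
  have hidem : IsIdempotentElem (aeval z (v * Q) * e) := by
    have e1 : v * Q * (v * Q) = v * Q - u * v * P := by
      rw [hPQ]
      have : v * Q = 1 - u * (X - C c) ^ m := by rw [← huv]; ring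
      calc v * Q * (v * Q) = (v * Q) * (1 - u * (X - C c) ^ m) := by rw [← this]
        _ = _ := by ring
    show aeval z (v * Q) * e * (aeval z (v * Q) * e) = aeval z (v * Q) * e
    rw [← mul_assoc, mul_assoc (aeval z (v * Q)) e, ← hcen (v * Q) e |>.symm, ← mul_assoc, ← map_mul, e1,
      mul_assoc, h1.eq, map_sub, sub_mul, hmulP, sub_zero]
  have hcen1 : ∀ x, x * (aeval z (v * Q) * e) = aeval z (v * Q) * e * x := by
    intro x
    rw [← mul_assoc, hcen, mul_assoc, h2, mul_assoc]
  have hee : aeval z (v * Q) * e * e = aeval z (v * Q) * e := by rw [mul_assoc, h1.eq]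
  rcases h4 _ hidem hcen1 with h5 | h5
  · exfalso
    rw [hee] at h5
    have h6 : Q ∈ I := by
      rw [hI]
      have e1 : Q = u * P + Q * (v * Q) := by
        rw [hPQ]
        calc Q = Q * (u * (X - C c) ^ m + v * Q) := by rw [huv, mul_one]
          _ = _ := by ring
      rw [e1, map_add, add_mul, hmulP, zero_add, map_mul, mul_assoc, h5, mul_zero]
    have h7 := (hdvd Q).1 h6
    refine hQ (dvd_trans ?_ h7)
    rw [hPQ]
    exact dvd_mul_of_dvd_left (dvd_pow_self _ hmpos.ne') _
  · rw [hee] at h5
    refine ⟨c, m, ?_⟩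
    have e1 : (z - algebraMap k (MonoidAlgebra k G) c) ^ m = aeval z ((X - C c) ^ m) := by
      rw [map_pow, map_sub, aeval_X, aeval_C]
    rw [e1, ← h5, ← mul_assoc, ← map_mul]
    have e2 : (X - C c) ^ m * (v * Q) = v * P := by
      rw [hPQ]; ring
    rw [e2, hmulP]

end loc

section prim
variable {G H : Type} [Group G] [Group H] [Finite G] [Finite H]

omit [Finite G] [Finite H] in
theorem box_ne {a : MonoidAlgebra k G} {b : MonoidAlgebra k H} (ha : a ≠ 0) (hb : b ≠ 0) :
    box a b ≠ 0 := by
  intro h
  have h1 : ∃ g, a.coeff g ≠ 0 := by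
    by_contra hcon
    push Not at hcon
    exact ha (by ext g; simpa using hcon g)
  have h2 : ∃ g, b.coeff g ≠ 0 := by
    by_contra hcon
    push Not at hcon
    exact hb (by ext g; simpa using hcon g)
  obtain ⟨g, hg⟩ := h1
  obtain ⟨g', hg'⟩ := h2
  have h3 := coeff_box a b g g'
  rw [h] at h3
  exact mul_ne_zero hg hg' (by rw [← h3]; simp)

omit [Finite G] [Finite H] in
theorem box_pow (a : MonoidAlgebra k G) (b : MonoidAlgebra k H) (n : ℕ) :
    (box a b) ^ n = box (a ^ n) (b ^ n) := by
  induction n with
  | zero => rw [pow_zero, pow_zero, pow_zero, box_one]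
  | succ n ih => rw [pow_succ, ih, box_mul, pow_succ, pow_succ]

/-- nilpotent up to a scalar on a block -/
def NearScalar {A : Type} [Ring A] [Algebra k A] (E z : A) : Prop :=
  ∃ c : k, IsNilpotent ((z - algebraMap k A c) * E)

theorem near_add {A : Type} [Ring A] [Algebra k A] {E z w : A} (hE : ∀ x, x * E = E * x)
    (hzc : ∀ x, x * z = z * x) (hz : NearScalar (k := k) E z) (hw : NearScalar (k := k) E w) :
    NearScalar (k := k) E (z + w) := by
  obtain ⟨c, h1⟩ := hz
  obtain ⟨d, h2⟩ := hw
  refine ⟨c + d, ?_⟩
  have e : (z + w - algebraMap k A (c + d)) * E =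
      (z - algebraMap k A c) * E + (w - algebraMap k A d) * E := by
    rw [map_add, ← add_mul]
    congr 1
    abel
  rw [e]
  refine Commute.isNilpotent_add ?_ h1 h2
  have h3 : ∀ x, x * ((z - algebraMap k A c) * E) = (z - algebraMap k A c) * E * x := by
    intro x
    rw [← mul_assoc, mul_sub, hzc, ← Algebra.commutes c x, ← sub_mul, mul_assoc, hE, mul_assoc]
  exact (h3 _).symm

theorem near_smul {A : Type} [Ring A] [Algebra k A] {E z : A} (r : k) (hz : NearScalar (k := k) E z) :
    NearScalar (k := k) E (r • z) := by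
  obtain ⟨c, n, h1⟩ := hz
  refine ⟨r * c, n, ?_⟩
  have e : (r • z - algebraMap k A (r * c)) * E = r • ((z - algebraMap k A c) * E) := by
    rw [← smul_mul_assoc, smul_sub, map_mul, ← Algebra.smul_def]
  rw [e, smul_pow, h1, smul_zero]

theorem near_box [IsAlgClosed k] {e : MonoidAlgebra k G} {f : MonoidAlgebra k H} (he : IsBlock e)
    (hf : IsBlock f) {z : MonoidAlgebra k G} {w : MonoidAlgebra k H} (hz : ∀ x, x * z = z * x)
    (hw : ∀ x, x * w = w * x) : NearScalar (k := k) (box e f) (box z w) := by
  obtain ⟨c, n, h1⟩ := exists_nilp he hz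
  obtain ⟨d, m, h2⟩ := exists_nilp hf hw
  refine ⟨c * d, ?_⟩
  have e1 : (box z w - algebraMap k (MonoidAlgebra k (G × H)) (c * d)) * box e f =
      box ((z - algebraMap k _ c) * e) (w * f) + c • box e ((w - algebraMap k _ d) * f) := by
    have e2 : ∀ (r : k) (a : MonoidAlgebra k G) (b : MonoidAlgebra k H), box (r • a) b = r • box a b := by
      intro r a b
      unfold box
      rw [map_smul, smul_mul_assoc]
    have e3 : ∀ (r : k) (a : MonoidAlgebra k G) (b : MonoidAlgebra k H), box a (r • b) = r • box a b := by
      intro r a b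
      unfold box
      rw [map_smul, mul_smul_comm]
    have e4 : ∀ (a a' : MonoidAlgebra k G) (b : MonoidAlgebra k H),
        box (a - a') b = box a b - box a' b := by
      intro a a' b
      unfold box
      rw [map_sub, sub_mul]
    have e5 : ∀ (a : MonoidAlgebra k G) (b b' : MonoidAlgebra k H),
        box a (b - b') = box a b - box a b' := by
      intro a b b'
      unfold box
      rw [map_sub, mul_sub]
    rw [sub_mul, box_mul, sub_mul, sub_mul, ← Algebra.smul_def, ← Algebra.smul_def, ← Algebra.smul_def,
      e4, e5, e2, e3, smul_sub, mul_smul]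
    abel
  rw [e1]
  have hce : ∀ x, x * ((z - algebraMap k _ c) * e) = (z - algebraMap k _ c) * e * x := by
    intro x
    rw [← mul_assoc, mul_sub, hz, ← Algebra.commutes c x, ← sub_mul, mul_assoc, he.2.1, mul_assoc]
  have hwf : ∀ x, x * (w * f) = w * f * x := by
    intro x
    rw [← mul_assoc, hw, mul_assoc, hf.2.1, mul_assoc]
  refine Commute.isNilpotent_add ?_ ?_ ?_
  · exact (box_central hce hwf _).symm
  · refine ⟨n + 1, ?_⟩
    rw [box_pow]
    have h3 : ((z - algebraMap k _ c) * e) ^ (n + 1) = 0 := by
      have hcom : Commute (z - algebraMap k (MonoidAlgebra k G) c) e := he.2.1 _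
      rw [hcom.mul_pow, he.1.pow_succ_eq, pow_succ', mul_assoc, h1, mul_zero]
    rw [h3, zero_box]
  · have h3 : ((w - algebraMap k _ d) * f) ^ (m + 1) = 0 := by
      have hcom : Commute (w - algebraMap k (MonoidAlgebra k H) d) f := hf.2.1 _
      rw [hcom.mul_pow, hf.1.pow_succ_eq, pow_succ', mul_assoc, h2, mul_zero]
    refine ⟨m + 1, ?_⟩
    rw [smul_pow, box_pow, h3, box_zero, smul_zero]

theorem near_central [IsAlgClosed k] {e : MonoidAlgebra k G} {f : MonoidAlgebra k H} (he : IsBlock e)
    (hf : IsBlock f) {F : MonoidAlgebra k (G × H)} (hF : ∀ x, x * F = F * x) :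
    NearScalar (k := k) (box e f) F := by
  classical
  have : Fintype (ConjClasses G) := Fintype.ofFinite _
  have : Fintype (ConjClasses H) := Fintype.ofFinite _
  have hE := box_central he.2.1 hf.2.1
  rw [central_expand hF]
  have key : ∀ (s : Finset (ConjClasses G × ConjClasses H)),
      (∀ x, x * (∑ p ∈ s, F.coeff ((Quotient.out p.1 : G), (Quotient.out p.2 : H)) •
        box (cls k p.1) (cls k p.2)) = (∑ p ∈ s, F.coeff ((Quotient.out p.1 : G), (Quotient.out p.2 : H)) •
        box (cls k p.1) (cls k p.2)) * x) ∧
      NearScalar (k := k) (box e f) (∑ p ∈ s, F.coeff ((Quotient.out p.1 : G), (Quotient.out p.2 : H)) •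
        box (cls k p.1) (cls k p.2)) := by
    intro s
    induction s using Finset.induction_on with
    | empty =>
      refine ⟨fun x => by rw [sum_empty, mul_zero, zero_mul], 0, 1, ?_⟩
      rw [sum_empty, map_zero, sub_zero, zero_mul, pow_one]
    | insert p s hp ih =>
      have h1 := near_smul (F.coeff ((Quotient.out p.1 : G), (Quotient.out p.2 : H)))
        (near_box he hf (cls_central p.1) (cls_central p.2))
      have h2 : ∀ x, x * (F.coeff ((Quotient.out p.1 : G), (Quotient.out p.2 : H)) •
          box (cls k p.1) (cls k p.2)) = (F.coeff ((Quotient.out p.1 : G), (Quotient.out p.2 : H)) •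
          box (cls k p.1) (cls k p.2)) * x := by
        intro x
        rw [mul_smul_comm, smul_mul_assoc, box_central (cls_central p.1) (cls_central p.2)]
      rw [sum_insert hp]
      exact ⟨fun x => by rw [mul_add, add_mul, h2, ih.1], near_add hE h2 h1 ih.2⟩
  have h2 := (key univ).2
  rw [← univ_product_univ, sum_product] at h2
  exact h2

/-- The product of two blocks is a block. -/
theorem isBlock_box [IsAlgClosed k] {e : MonoidAlgebra k G} {f : MonoidAlgebra k H} (he : IsBlock e)
    (hf : IsBlock f) : IsBlock (box e f) := by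
  have hE := box_central he.2.1 hf.2.1
  have hidem : IsIdempotentElem (box e f) := by
    show box e f * box e f = box e f
    rw [box_mul, he.1.eq, hf.1.eq]
  have hne := box_ne he.2.2.1 hf.2.2.1
  refine ⟨hidem, hE, hne, fun F hF hFc => ?_⟩
  set E := box e f with hEdef
  obtain ⟨c, N0⟩ := near_central he hf hFc
  rw [← hEdef] at N0
  set N := (F - algebraMap k _ c) * E with hN
  have hG : F * E = c • E + N := by
    rw [hN, sub_mul, ← Algebra.smul_def]; abel
  have hNE : N * E = N := by rw [hN, mul_assoc, hidem.eq]
  have hEN : E * N = N := by rw [← hE, hNE]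
  have hGG : (F * E) * (F * E) = F * E := by
    rw [mul_assoc F E (F * E), ← mul_assoc E F E, hFc E, mul_assoc F E E, hidem.eq, ← mul_assoc F F E,
      hF.eq]
  have hEFE : E * (F * E) = F * E := by
    rw [← mul_assoc, ← hE F, mul_assoc, hidem.eq]
  have hnil0 : ∀ M : MonoidAlgebra k (G × H), IsNilpotent M → M * M = M → M = 0 := by
    rintro M ⟨n, hn⟩ hM
    have h1 : ∀ n : ℕ, M ^ (n + 1) = M := by
      intro n
      induction n with
      | zero => rw [pow_one]
      | succ n ih => rw [pow_succ, ih, hM]
    have h2 : M ^ (n + 1) = 0 := by rw [pow_succ, hn, zero_mul]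
    rw [h1] at h2
    exact h2
  have hc : (c * c - c) • E = N * ((1 - 2 * c) • 1 - N) := by
    have h5 := hGG
    rw [hG] at h5
    have h6 : (c • E + N) * (c • E + N) = (c * c) • E + (2 * c) • N + N * N := by
      rw [add_mul, mul_add, mul_add, smul_mul_smul_comm, hidem.eq, smul_mul_assoc, hEN, mul_smul_comm, hNE,
        two_mul, add_smul]
      abel
    rw [h6] at h5
    rw [mul_sub, mul_smul_comm, mul_one, sub_smul, sub_smul, one_smul]
    have h7 : (c * c) • E = c • E + N - ((2 * c) • N + N * N) := by
      rw [← h5]; abel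
    rw [h7]
    abel
  have hcc : c * c - c = 0 := by
    by_contra hne2
    have h1 : IsNilpotent ((c * c - c) • E) := by
      rw [hc]
      refine Commute.isNilpotent_mul_right ?_ N0
      refine Commute.sub_right ?_ (Commute.refl N)
      exact (Commute.one_right N).smul_right _
    obtain ⟨n, hn⟩ := h1
    rw [smul_pow] at hn
    have h2 : E ^ n = 0 := (smul_eq_zero.1 hn).resolve_left (pow_ne_zero n hne2)
    exact hne (hnil0 E ⟨n, h2⟩ hidem.eq)
  have hc01 : c = 0 ∨ c = 1 := by
    have : c * (c - 1) = 0 := by rw [mul_sub, mul_one]; exact hcc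
    rcases mul_eq_zero.1 this with h | h
    · exact Or.inl h
    · exact Or.inr (sub_eq_zero.1 h)
  rcases hc01 with h | h
  · left
    rw [h, zero_smul, zero_add] at hG
    rw [hG]
    rw [hG] at hGG
    exact hnil0 N N0 hGG
  · right
    rw [h, one_smul] at hG
    have h1 : E - F * E = -N := by rw [hG]; abel
    have h2 : (E - F * E) * (E - F * E) = E - F * E := by
      rw [sub_mul, mul_sub, mul_sub, hidem.eq, hEFE, hGG, mul_assoc, hidem.eq]
      abel
    have h3 : E - F * E = 0 := by
      refine hnil0 _ ?_ h2
      rw [h1]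
      exact N0.neg
    exact (sub_eq_zero.1 h3).symm

end prim

end Pool.Agent.X27.Blk
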